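import Mathlib

/-! # Lengths in finite free extensions of Artinian rings -/

set_option autoImplicit false

open Module

namespace ZF

universe u

section

variable {A B : Type u} [CommRing A] [CommRing B] [Algebra A B]

theorem length_localization (P : Ideal A) [P.IsPrime] (Q : Ideal B) [Q.IsPrime] [Q.LiesOver P]
    [Module.Flat A B] :
    (length (Localization.AtPrime Q) (Localization.AtPrime Q)).toNat =
      (length (Localization.AtPrime P) (Localization.AtPrime P)).toNat * Q.ramificationIdx A := by
  let _ := Localization.AtPrime.algebraOfLiesOver P Q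
  rw [Ideal.ramificationIdx_eq P Q, ← ENat.toNat_mul]
  congr 1
  have h1 := IsLocalRing.length_baseChange (Localization.AtPrime P) (Localization.AtPrime Q)
    (Localization.AtPrime P)
  rw [← Localization.AtPrime.map_eq_maximalIdeal, Ideal.map_map,
    ← IsScalarTower.algebraMap_eq] at h1
  rw [← h1]
  exact (TensorProduct.AlgebraTensorModule.rid (Localization.AtPrime P) (Localization.AtPrime Q)
    (Localization.AtPrime Q)).length_eq.symm

theorem sum_length (P : Ideal A) [P.IsPrime] [Module.Finite A B] [Module.Free A B]
    [Fintype (P.primesOver B)] :
    ∑ Q : P.primesOver B, Q.1.ramificationIdx A * Q.1.inertiaDeg A = finrank A B := by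
  have : Nontrivial A := ⟨1, 0, fun h => Ideal.IsPrime.ne_top ‹_›
    ((Ideal.eq_top_iff_one P).2 (h ▸ P.zero_mem))⟩
  rw [Ideal.sum_ramification_inertia_eq_finrank_fiber]
  exact Module.finrank_baseChange

/-- The dimension of a finite algebra over a field. -/
theorem sum_length_field {F : Type u} [Field F] [Algebra F B] [Module.Finite F B]
    [Fintype (PrimeSpectrum B)] :
    ∑ Q : PrimeSpectrum B, (length (Localization.AtPrime Q.asIdeal)
      (Localization.AtPrime Q.asIdeal)).toNat * finrank F Q.asIdeal.ResidueField =
      finrank F B := by
  have hB : IsArtinianRing B := IsArtinianRing.of_finite F B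
  rw [IsArtinianRing.finrank_eq_sum_primeSpectrum]
  refine Finset.sum_congr rfl fun Q _ => ?_
  have hQ : Q.asIdeal.IsMaximal := inferInstance
  have h0 : Module.Finite B (Localization.AtPrime Q.asIdeal) :=
    Module.Finite.of_surjective (Algebra.linearMap B (Localization.AtPrime Q.asIdeal))
      (IsArtinianRing.localization_surjective Q.asIdeal.primeCompl _)
  have h1 : Module.Finite F (Localization.AtPrime Q.asIdeal) := Module.Finite.trans B _
  have h2 : Module.Finite F Q.asIdeal.ResidueField := Module.Finite.trans B _
  have h3 := IsLocalRing.length_restrictScalars F (Localization.AtPrime Q.asIdeal)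
    (Localization.AtPrime Q.asIdeal)
  rw [length_eq_finrank, ← Module.length_eq_of_surjective (S := F)
    (R := IsLocalRing.ResidueField F) IsLocalRing.residue_surjective, length_eq_finrank] at h3
  have h4 := congrArg ENat.toNat h3
  rw [ENat.toNat_mul] at h4
  simpa using h4.symm

end

end ZF
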