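import Mathlib

/-! # Tensor products with towers of fields -/

set_option autoImplicit false

open Module TensorProduct

namespace ZF

universe u

section

variable (K K' κ L : Type u) [Field K] [Field K'] [Field κ] [Field L] [Algebra K K'] [Algebra K κ]
  [Algebra K L] [Algebra κ L] [IsScalarTower K κ L]

/-- The algebra `K' ⊗ L` over `K' ⊗ κ`. -/
noncomputable abbrev tenAlg : Algebra (K' ⊗[K] κ) (K' ⊗[K] L) :=
  (Algebra.TensorProduct.map (AlgHom.id K' K') (IsScalarTower.toAlgHom K κ L)).toRingHom.toAlgebra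

attribute [local instance] Algebra.TensorProduct.rightAlgebra

theorem ten_free [FiniteDimensional κ L] : letI := tenAlg K K' κ L
    Module.Free (K' ⊗[K] κ) (K' ⊗[K] L) ∧ Module.Finite (K' ⊗[K] κ) (K' ⊗[K] L) ∧
      finrank (K' ⊗[K] κ) (K' ⊗[K] L) = finrank κ L := by
  let _ := tenAlg K K' κ L
  let _ : Algebra κ (K' ⊗[K] L) := ((algebraMap L (K' ⊗[K] L)).comp (algebraMap κ L)).toAlgebra
  have : IsScalarTower κ L (K' ⊗[K] L) := IsScalarTower.of_algebraMap_eq fun x => rfl
  have : IsScalarTower κ (K' ⊗[K] κ) (K' ⊗[K] L) := IsScalarTower.of_algebraMap_eq fun x => by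
    change (1 : K') ⊗ₜ[K] algebraMap κ L x = Algebra.TensorProduct.map (AlgHom.id K' K')
      (IsScalarTower.toAlgHom K κ L) (1 ⊗ₜ[K] x)
    rw [Algebra.TensorProduct.map_tmul]
    rfl
  have : IsScalarTower K (K' ⊗[K] κ) (K' ⊗[K] L) := IsScalarTower.of_algebraMap_eq fun x => by
    change algebraMap K K' x ⊗ₜ[K] (1 : L) = Algebra.TensorProduct.map (AlgHom.id K' K')
      (IsScalarTower.toAlgHom K κ L) (algebraMap K K' x ⊗ₜ[K] 1)
    rw [Algebra.TensorProduct.map_tmul, map_one]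
    rfl
  have : IsScalarTower K' (K' ⊗[K] κ) (K' ⊗[K] L) := IsScalarTower.of_algebraMap_eq fun x => by
    change x ⊗ₜ[K] (1 : L) = Algebra.TensorProduct.map (AlgHom.id K' K')
      (IsScalarTower.toAlgHom K κ L) (x ⊗ₜ[K] 1)
    rw [Algebra.TensorProduct.map_tmul, map_one]
    rfl
  have : IsScalarTower K L (K' ⊗[K] L) := inferInstance
  have : IsScalarTower K κ (K' ⊗[K] κ) := inferInstance
  have h : Algebra.IsPushout κ L (K' ⊗[K] κ) (K' ⊗[K] L) :=
    (Algebra.IsPushout.comp_iff K κ K' (K' ⊗[K] κ) (T := L) (T' := K' ⊗[K] L)).1 inferInstance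
  have h1 := h.symm
  let e := (Algebra.IsPushout.equiv κ (K' ⊗[K] κ) L (K' ⊗[K] L)).toLinearEquiv
  exact ⟨Module.Free.of_equiv e, Module.Finite.equiv e, by
    rw [← e.finrank_eq, Module.finrank_baseChange]⟩

end

end ZF
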