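import Pool.Agent.Helper15.ZF.BC
import Pool.Agent.Helper15.ZF.Deg
import Pool.Agent.Helper53.ZF.Length
import Pool.Agent.Helper53.ZF.Tensor

/-! # Base change commutes with the push-forward of points -/

set_option autoImplicit false

open MvPolynomial ZC TensorProduct

namespace ZF

universe u

section term

variable {K : Type u} [Field K] {V ι R : Type} {p : V → ι}

/-- One point `Q` of `K' ⊗ L` over the point `P` of `K' ⊗ κ`. -/
theorem ptCycle_over (X : MVar K p R) {A B : Type u} [CommRing A] [CommRing B] [Algebra K A]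
    [Algebra K B] [Algebra A B] [IsScalarTower K A B] [Module.Finite K A] [Module.Finite K B]
    (P : PrimeSpectrum A) (Q : PrimeSpectrum B) [Q.asIdeal.LiesOver P.asIdeal]
    (y : V → A) (x : V → B) (h : ∀ v, x v = algebraMap A B (y v))
    (hy : X.IsPt fun v => ev P (y v)) (hx : X.IsPt fun v => ev Q (x v)) :
    ptCycle X _ hx = (Q.asIdeal.inertiaDeg A : ℤ) • ptCycle X _ hy := by
  let _ := Localization.AtPrime.algebraOfLiesOver P.asIdeal Q.asIdeal
  have hA : IsArtinianRing A := IsArtinianRing.of_finite K A
  have hB : IsArtinianRing B := IsArtinianRing.of_finite K B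
  have : P.asIdeal.IsMaximal := inferInstance
  have : Q.asIdeal.IsMaximal := inferInstance
  have : FiniteDimensional K P.asIdeal.ResidueField := Module.Finite.trans A _
  have : FiniteDimensional K Q.asIdeal.ResidueField := Module.Finite.trans B _
  let τ : P.asIdeal.ResidueField →ₐ[K] Q.asIdeal.ResidueField :=
    IsScalarTower.toAlgHom K P.asIdeal.ResidueField Q.asIdeal.ResidueField
  have h1 : (fun v => τ (ev P (y v))) = fun v => ev Q (x v) := by
    funext v
    change algebraMap P.asIdeal.ResidueField Q.asIdeal.ResidueField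
      (algebraMap A P.asIdeal.ResidueField (y v)) = algebraMap B Q.asIdeal.ResidueField (x v)
    rw [← IsScalarTower.algebraMap_apply, h v, ← IsScalarTower.algebraMap_apply]
  have h2 := ptCycle_tower X τ hy (by rw [h1]; exact hx)
  rw [← ptCycle_of_eq X (by rw [h1]; exact hx) hx h1, h2,
    Ideal.inertiaDeg_eq P.asIdeal Q.asIdeal]
  congr 2
  refine @Algebra.finrank_eq_of_equiv_equiv P.asIdeal.ResidueField Q.asIdeal.ResidueField _ _
    τ.toRingHom.toAlgebra P.asIdeal.ResidueField Q.asIdeal.ResidueField _ _ _ (RingEquiv.refl _)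
    (RingEquiv.refl _) ?_
  rfl

end term

section spec

variable {A B : Type u} [CommRing A] [CommRing B] [Algebra A B]

/-- The points of `Spec B` are the points over the points of `Spec A`. -/
noncomputable def specSigma : (Σ P : PrimeSpectrum A, P.asIdeal.primesOver B) ≃
    PrimeSpectrum B where
  toFun x := ⟨x.2.1, x.2.2.1⟩
  invFun Q := ⟨Q.comap (algebraMap A B), ⟨Q.asIdeal, Q.2, ⟨rfl⟩⟩⟩
  left_inv := by
    rintro ⟨P, Q, hQ, hP⟩
    have h1 : PrimeSpectrum.comap (algebraMap A B) ⟨Q, hQ⟩ = P := by
      ext1
      exact hP.over.symm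
    subst h1
    rfl
  right_inv Q := rfl

/-- The push-forward along `Spec B → Spec A`, `B` free over `A`. -/
theorem specCycle_tower {K : Type u} [Field K] {V ι R : Type} {p : V → ι} (X : MVar K p R)
    [Algebra K A] [Algebra K B] [IsScalarTower K A B] [Module.Finite K A] [Module.Finite K B]
    [Module.Free A B] [Module.Finite A B] (y : V → A) (hy : SpecPt X A y) (x : V → B)
    (hx : SpecPt X B x) (h : ∀ v, x v = algebraMap A B (y v)) :
    specCycle X B x hx = (Module.finrank A B : ℤ) • specCycle X A y hy := by
  classical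
  have hA : IsArtinianRing A := IsArtinianRing.of_finite K A
  have hB : IsArtinianRing B := IsArtinianRing.of_finite K B
  let _ := Fintype.ofFinite (PrimeSpectrum A)
  let _ := Fintype.ofFinite (PrimeSpectrum B)
  have hfP : ∀ P : PrimeSpectrum A, Finite (P.asIdeal.primesOver B) := fun P =>
    Finite.of_injective (fun Q : P.asIdeal.primesOver B => (specSigma ⟨P, Q⟩ : PrimeSpectrum B))
      (fun Q Q' h => by
        have h1 := specSigma.injective h
        simpa using h1)
  let _ := fun P : PrimeSpectrum A => Fintype.ofFinite (P.asIdeal.primesOver B)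
  rw [specCycle, specCycle, finsum_eq_sum_of_fintype, finsum_eq_sum_of_fintype,
    ← (specSigma (A := A) (B := B)).sum_comp, Fintype.sum_sigma, Finset.smul_sum]
  refine Finset.sum_congr rfl fun P _ => ?_
  have key : ∀ Q : P.asIdeal.primesOver B,
      mult (specSigma ⟨P, Q⟩) • ptCycle X (fun v => ev (specSigma ⟨P, Q⟩) (x v))
        (hx (specSigma ⟨P, Q⟩)) =
      (Q.1.ramificationIdx A * Q.1.inertiaDeg A) •
        (mult P • ptCycle X (fun v => ev P (y v)) (hy P)) := by
    rintro ⟨Q, hQ, hQP⟩
    have h1 := length_localization P.asIdeal Q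
    have h2 := ptCycle_over X P ⟨Q, hQ⟩ y x h (hy P) (hx ⟨Q, hQ⟩)
    change (Module.length (Localization.AtPrime Q) (Localization.AtPrime Q)).toNat • _ = _
    rw [h1]
    refine (congrArg _ h2).trans ?_
    rw [natCast_zsmul, ← mul_smul, ← mul_smul, mult]
    congr 1
    ring
  rw [Finset.sum_congr rfl fun Q _ => key Q, ← Finset.sum_smul, sum_length]
  exact (natCast_zsmul _ _).symm

/-- The degree of the cycle of `Spec A` is the dimension of `A`. -/
theorem degZ_specCycle {K : Type u} [Field K] {V ι R : Type} {p : V → ι} (X : MVar K p R)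
    [Algebra K A] [Module.Finite K A] (x : V → A) (hx : SpecPt X A x) :
    degZ X (specCycle X A x hx) = Module.finrank K A := by
  have hA : IsArtinianRing A := IsArtinianRing.of_finite K A
  let _ := Fintype.ofFinite (PrimeSpectrum A)
  rw [specCycle, finsum_eq_sum_of_fintype, map_sum, ← sum_length_field (F := K) (B := A),
    Nat.cast_sum]
  refine Finset.sum_congr rfl fun P _ => ?_
  have : P.asIdeal.IsMaximal := inferInstance
  have : FiniteDimensional K P.asIdeal.ResidueField := Module.Finite.trans A _
  rw [map_nsmul, nsmul_eq_mul, Nat.cast_mul, degZ_ptCycle]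
  rfl

end spec

section tower

variable {K : Type u} [Field K] {V ι R : Type} {p : V → ι}

/-- The base change of the push-forward of a point. -/
theorem bcPt_tower (X : MVar K p R) (K' : Type u) [Field K'] [Algebra K K'] {κ L : Type u}
    [Field κ] [Field L] [Algebra K κ] [Algebra K L] [FiniteDimensional K κ]
    [FiniteDimensional K L] [Algebra κ L] [IsScalarTower K κ L] (y : V → κ) (hy : X.IsPt y)
    (hx : X.IsPt fun v => algebraMap κ L (y v)) :
    bcPt X K' (fun v => algebraMap κ L (y v)) hx =
      (Module.finrank κ L : ℤ) • bcPt X K' y hy := by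
  let _ := tenAlg K K' κ L
  have hfd : FiniteDimensional κ L := FiniteDimensional.right K κ L
  obtain ⟨hfree, hfin, hrank⟩ := ten_free K K' κ L
  have : IsScalarTower K' (K' ⊗[K] κ) (K' ⊗[K] L) := IsScalarTower.of_algebraMap_eq fun x => by
    change x ⊗ₜ[K] (1 : L) = Algebra.TensorProduct.map (AlgHom.id K' K')
      (IsScalarTower.toAlgHom K κ L) (x ⊗ₜ[K] 1)
    rw [Algebra.TensorProduct.map_tmul, map_one]
    rfl
  rw [bcPt, bcPt, ← hrank]
  refine specCycle_tower (X.bc K') _ _ _ _ fun v => ?_
  change _ = Algebra.TensorProduct.map (AlgHom.id K' K')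
    (IsScalarTower.toAlgHom K κ L) (1 ⊗ₜ[K] y v)
  rw [Algebra.TensorProduct.map_tmul]
  rfl

variable [Finite V]

/-- The base change of the push-forward of a point, as cycles. -/
theorem bcZ_ptCycle_all (X : MVar K p R) (K' : Type u) [Field K'] [Algebra K K'] {L : Type u}
    [Field L] [Algebra K L] [FiniteDimensional K L] (x : V → L) (hx : X.IsPt x) :
    bcZ X K' (ptCycle X x hx) = bcPt X K' x hx := by
  set P := closedPt X x hx with hP
  obtain ⟨τ, c, hc, hτ⟩ := exists_emb X x hx P.out (Quotient.out_eq P).symm
  have hfd := coordField_finite (p := p) P.out.1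
  let _ := τ.toRingHom.toAlgebra
  have : IsScalarTower K (coordField K p P.out.1) L :=
    IsScalarTower.of_algebraMap_eq fun a => (τ.commutes a).symm
  have hy := nrm_isPt P.out
  have hy' : X.IsPt fun v => algebraMap (coordField K p P.out.1) L (nrm P.out v) :=
    isPt_comp X τ hy
  rw [ptCycle_congr X AlgEquiv.refl c hc hy' hx hτ |>.symm,
    ← bcPt_congr X K' (AlgEquiv.refl : L ≃ₐ[K] L) c hc hy' hx hτ, bcPt_tower X K' _ hy hy']
  rw [← bcZ_ptCycle X K' _ hy (coordField_nrm P.out), ← map_zsmul]
  congr 1
  exact ptCycle_tower X τ hy hy'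

end tower

section degree

variable {K : Type u} [Field K] {V ι R : Type} {p : V → ι}

/-- The degree of a base change of a point. -/
theorem degZ_bcPt (X : MVar K p R) (K' : Type u) [Field K'] [Algebra K K'] {L : Type u}
    [Field L] [Algebra K L] [FiniteDimensional K L] (x : V → L) (hx : X.IsPt x) :
    degZ (X.bc K') (bcPt X K' x hx) = Module.finrank K L := by
  rw [bcPt, degZ_specCycle, Module.finrank_baseChange]

variable [Finite V]

/-- The degree does not change under base change. -/
theorem degZ_bcZ (X : MVar K p R) (K' : Type u) [Field K'] [Algebra K K']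
    (c : ClosedPoint X →₀ ℤ) : degZ (X.bc K') (bcZ X K' c) = degZ X c := by
  induction c using Finsupp.induction_linear with
  | zero => simp only [map_zero]
  | add f g hf hg => rw [map_add, map_add, map_add, hf, hg]
  | single P a =>
    have := coordField_finite (p := p) P.out.1
    rw [single_zsmul, map_zsmul, map_zsmul, map_zsmul, ← single_out P, bcZ_ptCycle_all,
      degZ_bcPt, degZ_ptCycle]

end degree

section push

variable {K : Type u} [Field K] {V ι R : Type} {p : V → ι} {n r : ℕ} [Finite V]
  {X : MVar K (addBlock n p) (Fin r ⊕ R)} {B : MVar K p R}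

/-- Base change commutes with push-forward. -/
theorem bcZ_pushZ (h : X.IsOver B) (K' : Type u) [Field K'] [Algebra K K']
    (c : ClosedPoint X →₀ ℤ) : bcZ B K' (pushZ h c) = pushZ (h.bc K') (bcZ X K' c) := by
  induction c using Finsupp.induction_linear with
  | zero => simp only [map_zero]
  | add f g hf hg => rw [map_add, map_add, map_add, hf, hg, map_add]
  | single P a =>
    have := coordField_finite (p := addBlock n p) P.out.1
    rw [single_zsmul, map_zsmul, map_zsmul, map_zsmul, map_zsmul, ← single_out P,
      pushZ_ptCycle h, bcZ_ptCycle_all, bcZ_ptCycle_all, pushZ_bcPt h]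

end push

end ZF
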