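import Pool.Agent.Helper15.ZF.Tower
import Pool.Agent.Helper53.ZF.FlatBC

/-! # Global families: push-forward and orthogonality to the constant classes -/

set_option autoImplicit false

open MvPolynomial ZC

namespace ZF

universe u

variable {F k : Type u} [Field F] [Field k] [Algebra F k]

section push

variable {V ι R : Type} [Finite V] {p : V → ι} {n r : ℕ}
  {X : MVar k (addBlock n p) (Fin r ⊕ R)} {B : MVar k p R}

/-- The push-forward of a global family is global. -/
theorem LocFam.Global.push (h : X.IsOver B) {z : LocFam F X} (hz : z.Global) :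
    (z.push h).Global := by
  obtain ⟨Z, hZ, hZz⟩ := hz
  refine ⟨fun m => pushZ h (Z m), ?_, fun v m hm => ?_⟩
  · intro m m' hm hm' hmm
    obtain ⟨g, hg⟩ := hZ m m' hm hm' hmm
    refine ⟨CH0.push h g, ?_⟩
    rw [← map_nsmul, ← hg, map_sub, CH0.push_mk, CH0.push_mk]
  · obtain ⟨g, hg⟩ := hZz v m hm
    refine ⟨CH0.push (h.bc v.Completion) g, ?_⟩
    rw [← map_nsmul, ← hg, map_sub, bcCl, bcCl, CH0.push_mk, bcZ_pushZ]
    rfl

/-- A family is global if and only if its push-forward is. -/
theorem transfer_iff (h : Low X B) (hk : C2 k) (hv : ∀ v : Place F k, C2 v.Completion)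
    (z : LocFam F X) : z.Global ↔ (z.push h.isOver).Global :=
  ⟨fun hz => hz.push h.isOver, transfer h hk hv z⟩

end push

section recip

theorem constPairing_eq (v : Place F k) {V ι R : Type} [Finite V] {p : V → ι}
    {X : MVar v.Completion p R} (z : CH0 X) (f : k) {m : ℕ} (hm : 0 < m) {d : ℤ} {g : ℤ}
    (h : d - CH0.deg X z = m * g) :
    constPairing v z f m = ((d / m * ((v.ord f * v.deg : ℤ) : ℚ) : ℚ) : AddCircle (1 : ℚ)) := by
  have hm0 : (m : ℚ) ≠ 0 := Nat.cast_ne_zero.2 hm.ne'
  have h1 : (CH0.deg X z : ℚ) = d - m * g := by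
    have : CH0.deg X z = d - m * g := by rw [← h]; ring
    rw [this]
    push_cast
    ring
  rw [constPairing, h1, eq_comm, ← sub_eq_zero, ← AddCircle.coe_sub, AddCircle.coe_eq_zero_iff]
  refine ⟨g * (v.ord f * v.deg), ?_⟩
  have h2 : (((v.deg : ℤ) : ℚ)) = (v.deg : ℚ) := by push_cast; rfl
  rw [zsmul_eq_mul, mul_one, Int.cast_mul, Int.cast_mul, h2]
  field_simp
  ring

/-- A global family is orthogonal to the constant classes. -/
theorem LocFam.Global.orth (hk : IsCurveField F k) {V ι R : Type} [Finite V] {p : V → ι}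
    {X : MVar k p R} {z : LocFam F X} (hz : z.Global) : z.Orth := by
  intro f m hf hm
  obtain ⟨Z, -, hZ⟩ := hz
  have h1 : ∀ v : Place F k, constPairing v (z v m) f m =
      ((degZ X (Z m) / m * ((v.ord f * v.deg : ℤ) : ℚ) : ℚ) : AddCircle (1 : ℚ)) := by
    intro v
    obtain ⟨g, hg⟩ := hZ v m hm
    refine constPairing_eq v (z v m) f hm (g := CH0.deg _ g) ?_
    have h2 := congrArg (CH0.deg (X.bc v.Completion)) hg
    rw [map_sub, bcCl, CH0.deg_mk, degZ_bcZ, map_nsmul, nsmul_eq_mul] at h2
    exact h2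
  rw [finsum_congr h1]
  have hfin := (sum_ord_deg hk f hf).1
  have hsum := (sum_ord_deg hk f hf).2
  set φ : ℤ →+ AddCircle (1 : ℚ) := (QuotientAddGroup.mk' (AddSubgroup.zmultiples (1 : ℚ))).comp
    ((AddMonoidHom.mulLeft ((degZ X (Z m) : ℚ) / m)).comp (Int.castAddHom ℚ)) with hφ
  have h3 : ∀ v : Place F k, ((degZ X (Z m) / m * ((v.ord f * v.deg : ℤ) : ℚ) : ℚ) :
      AddCircle (1 : ℚ)) = φ (v.ord f * v.deg) := fun v => rfl
  rw [finsum_congr h3, ← AddMonoidHom.map_finsum φ, hsum, map_zero]
  refine hfin.subset fun v hv h0 => hv ?_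
  change v.ord f * (v.deg : ℤ) = 0
  rw [h0, zero_mul]

/-- Exactness for iterated families: the image of the global classes is the group of all families
orthogonal to the constant classes. -/
theorem tower_exact_iff [Finite F] (hk : IsCurveField F k) {V ι R : Type} [Finite V] {p : V → ι}
    {X : MVar k p R} (hX : IsTower X) (z : LocFam F X) (hz : z.Compat) : z.Global ↔ z.Orth :=
  ⟨fun h => h.orth hk, tower_exact hk hX z hz⟩

end recip

end ZF
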